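import Mathlib
import Pool.Agent.Helper53.GD.Forms

/-!
# Large divisors of generalized Wagstaff numbers have no sparse multiples

Let `b ≥ 2` be a base of the question: no `a ^ m` with `m ≥ 3` odd, and not `4 c ^ 4`. Let `n` be odd and
`Q = (b ^ n + 1) / (b + 1)`.

* If `z` is a sum of at most `k` terms `c b ^ i` with `|c| ≤ H` and not a multiple of `Q`, then the greatest
  common divisor of `z` and `Q` is at most `(k H b) ^ (N ^ (k - 1)) b ^ (2 n / N)` for all `N` such that `n` has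
  no prime factor `≤ N ^ (k - 1)`.
* So for all `δ > 0` and `H` there is `c > 0` such that for all large odd `n` the following holds. If
  `x ≥ b ^ (δ n)` divides `Q`, then all multiples of `x`, except those of `Q`, have more than `c log P` terms,
  where `P` is the least prime factor of `n`. For primes `n`, the case of the question, this is `c log n`.
* In particular, for primes `n`, the larger factor in every factorization `Q = x y` has more than `c log n`
  digits different from zero in base `b`.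

Proof. By Dirichlet's theorem the exponents are near to the multiples of `n / q` for some `q ≤ N ^ (k - 1)`. The
determinant of the multiplication by the sparse integer in the number field generated by a root of
`X ^ q = - b ^ (- n)` is an integer divisible by the common divisor, small, and not zero.
-/

set_option autoImplicit false

namespace Pool.Agent.Results.MP_ce8d0c_nt.SparseMultiples

/-- `z` is a sum of at most `k` terms `c * b ^ i`, with different exponents `i` and integers `c` with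
`|c| ≤ H` -/
def Few (b k H : ℕ) (z : ℤ) : Prop :=
  ∃ (s : Finset ℕ) (c : ℕ → ℤ), s.card ≤ k ∧ (∀ i ∈ s, |c i| ≤ H) ∧ z = ∑ i ∈ s, c i * (b : ℤ) ^ i

/-- the bases of the question: `b ≥ 2`, `b` is no power with an odd exponent `≥ 3`, and not `4 c ^ 4` -/
def Base (b : ℕ) : Prop :=
  2 ≤ b ∧ (∀ m : ℕ, Odd m → 3 ≤ m → ∀ a : ℕ, a ^ m ≠ b) ∧ ∀ c : ℕ, 4 * c ^ 4 ≠ b

/-- the generalized Wagstaff numbers -/
def Q (b n : ℕ) : ℤ := ((b : ℤ) ^ n + 1) / ((b : ℤ) + 1)

lemma base_odd {b : ℕ} (hb : Base b) : ∀ p : ℕ, p.Prime → p ≠ 2 → ∀ c : ℕ, c ^ p ≠ b := by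
  intro p hp hp2 c
  have h1 := hp.two_le
  exact hb.2.1 p (hp.odd_of_ne_two hp2) (by omega) c

theorem asym {b H : ℕ} (hb : Base b) {δ : ℝ} (hδ : 0 < δ) :
    ∃ c : ℝ, 0 < c ∧ ∃ n₀ : ℕ, ∀ n : ℕ, n₀ ≤ n → Odd n → ∀ (k : ℕ) (x z : ℤ),
      x ∣ Q b n → (b : ℝ) ^ (δ * n) ≤ |(x : ℝ)| → x ∣ z → ¬ Q b n ∣ z → Few b k H z →
      c * Real.log n.minFac < k :=
  Pool.Agent.Helper53.GD.wagstaff_asym hb.1 (base_odd hb) hb.2.2 hδ

theorem result :
    -- common divisors with sparse integers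
    (∀ b : ℕ, Base b → ∀ (n k H N : ℕ) (z : ℤ), Odd n → 1 ≤ N →
      (∀ p : ℕ, p.Prime → p ∣ n → N ^ (k - 1) < p) → Few b k H z → ¬ Q b n ∣ z →
      Int.gcd z (Q b n) ≤ (k * H * b) ^ (N ^ (k - 1)) * b ^ (2 * n / N)) ∧
    -- multiples of large divisors
    (∀ b : ℕ, Base b → ∀ (H : ℕ) (δ : ℝ), 0 < δ →
      ∃ c : ℝ, 0 < c ∧ ∃ n₀ : ℕ, ∀ n : ℕ, n₀ ≤ n → Odd n → ∀ (k : ℕ) (x z : ℤ),
        x ∣ Q b n → (b : ℝ) ^ (δ * n) ≤ |(x : ℝ)| → x ∣ z → ¬ Q b n ∣ z → Few b k H z →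
        c * Real.log n.minFac < k) ∧
    -- factorizations, for prime exponents
    (∀ b : ℕ, Base b → ∀ H : ℕ, ∃ c : ℝ, 0 < c ∧ ∃ n₀ : ℕ, ∀ n : ℕ, n₀ ≤ n → n.Prime →
      ∀ x y : ℤ, 1 < y → y ≤ x → x * y = Q b n → ∀ (k : ℕ) (z : ℤ), x ∣ z → ¬ Q b n ∣ z →
      Few b k H z → c * Real.log n < k) := by
  refine ⟨?_, fun b hb H δ hδ => asym hb hδ, ?_⟩
  · intro b hb n k H N z hn hN hrough hz hnot
    exact Pool.Agent.Helper53.GD.wagstaff_few hb.1 (base_odd hb) hb.2.2 hn hN hrough hz hnot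
  · intro b hb H
    obtain ⟨c, hc, n₀, h⟩ := asym (H := H) hb (by norm_num : (0 : ℝ) < 1 / 4)
    refine ⟨c, hc, max n₀ 5, ?_⟩
    intro n hn hp x y hy hyx hxy k z hxz hnot hz
    have hn5 : 5 ≤ n := le_trans (le_max_right _ _) hn
    have hodd : Odd n := hp.odd_of_ne_two (by omega)
    have h0 := h n (le_trans (le_max_left _ _) hn) hodd k x z ⟨y, hxy.symm⟩ ?_ hxz hnot hz
    · rwa [hp.minFac_eq] at h0
    have hb2 := hb.1
    have hbz : (2 : ℤ) ≤ b := by exact_mod_cast hb2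
    have hx : 1 < x := lt_of_lt_of_le hy hyx
    -- `b ^ (n - 2) ≤ Q`
    have hd : ((b : ℤ) + 1) ∣ (b : ℤ) ^ n + 1 := by
      have := hodd.add_dvd_pow_add_pow (b : ℤ) 1
      rwa [one_pow] at this
    have hQ : Q b n * ((b : ℤ) + 1) = (b : ℤ) ^ n + 1 := Int.ediv_mul_cancel hd
    have hQlow : (b : ℤ) ^ (n - 2) ≤ Q b n := by
      have e1 : (b : ℤ) ^ n = (b : ℤ) ^ (n - 2) * b ^ 2 := by
        rw [← pow_add]
        congr 1
        omega
      have e2 : (0 : ℤ) < (b : ℤ) ^ (n - 2) := by positivity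
      by_contra hcon
      push Not at hcon
      have e3 : Q b n * ((b : ℤ) + 1) < (b : ℤ) ^ (n - 2) * ((b : ℤ) + 1) :=
        mul_lt_mul_of_pos_right hcon (by linarith)
      rw [hQ, e1] at e3
      have e4 : (b : ℤ) ^ (n - 2) * ((b : ℤ) + 1) ≤ (b : ℤ) ^ (n - 2) * b ^ 2 :=
        mul_le_mul_of_nonneg_left (by nlinarith) e2.le
      linarith
    have h1 : (b : ℤ) ^ (n - 2) ≤ x ^ 2 := by nlinarith
    have h2 : (b : ℤ) ^ n ≤ x ^ 4 := by
      calc (b : ℤ) ^ n ≤ (b : ℤ) ^ (2 * (n - 2)) := pow_le_pow_right₀ (by linarith) (by omega)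
        _ = ((b : ℤ) ^ (n - 2)) ^ 2 := by rw [mul_comm, pow_mul]
        _ ≤ (x ^ 2) ^ 2 := pow_le_pow_left₀ (by positivity) h1 2
        _ = x ^ 4 := by ring
    have h3 : (b : ℝ) ^ n ≤ (x : ℝ) ^ 4 := by exact_mod_cast h2
    have hx0 : (0 : ℝ) < x := by exact_mod_cast (by linarith : (0 : ℤ) < x)
    have hb0 : (0 : ℝ) ≤ b := by positivity
    rw [abs_of_pos hx0]
    have h4 : ((b : ℝ) ^ (1 / 4 * (n : ℝ))) ^ 4 ≤ (x : ℝ) ^ 4 := by
      rw [← Real.rpow_natCast, ← Real.rpow_mul hb0]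
      have e3 : 1 / 4 * (n : ℝ) * ((4 : ℕ) : ℝ) = n := by push_cast; ring
      rw [e3, Real.rpow_natCast]
      exact h3
    exact (pow_le_pow_iff_left₀ (by positivity) hx0.le (by norm_num)).1 h4

end Pool.Agent.Results.MP_ce8d0c_nt.SparseMultiples
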